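import Mathlib

set_option autoImplicit false

/-!
# Mixed differences along a list of steps, and the square root
-/

namespace Pool.Agent.H51.HQ

open Real

/-- mixed difference -/
def D : List ℝ → (ℝ → ℝ) → ℝ → ℝ
  | [], f, u => f u
  | a :: l, f, u => D l f (u + a) - D l f u

/-- mean value theorem for mixed differences -/
theorem D_deriv (l : List ℝ) (hl : ∀ a ∈ l, 0 < a) (g : ℕ → ℝ → ℝ)
    (hg : ∀ k u, 0 < u → HasDerivAt (g k) (g (k + 1) u) u) (k : ℕ) (u : ℝ) (hu : 0 < u) :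
    HasDerivAt (D l (g k)) (D l (g (k + 1)) u) u := by
  induction l generalizing u with
  | nil => exact hg k u hu
  | cons a l ih =>
    have ha : 0 < a := hl a (by simp)
    have hl' : ∀ b ∈ l, 0 < b := fun b hb => hl b (by simp [hb])
    have h1 := ih hl' u hu
    have h2 : HasDerivAt (fun x => D l (g k) (x + a)) (D l (g (k + 1)) (u + a)) u :=
      (ih hl' (u + a) (by linarith)).comp_add_const u a
    exact h2.sub h1

theorem D_mvt (l : List ℝ) (hl : ∀ a ∈ l, 0 < a) (g : ℕ → ℝ → ℝ)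
    (hg : ∀ k u, 0 < u → HasDerivAt (g k) (g (k + 1) u) u) (k : ℕ) (u : ℝ) (hu : 0 < u) :
    ∃ ξ, u ≤ ξ ∧ D l (g k) u = l.prod * g (k + l.length) ξ := by
  induction l generalizing u k with
  | nil => exact ⟨u, le_refl u, by simp [D]⟩
  | cons a l ih =>
    have ha : 0 < a := hl a (by simp)
    have hl' : ∀ b ∈ l, 0 < b := fun b hb => hl b (by simp [hb])
    have hd : ∀ x, 0 < x → HasDerivAt (D l (g k)) (D l (g (k + 1)) x) x :=
      fun x hx => D_deriv l hl' g hg k x hx
    obtain ⟨η, hη, h1⟩ := exists_hasDerivAt_eq_slope (D l (g k)) (D l (g (k + 1)))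
      (show u < u + a by linarith)
      (fun x hx => (hd x (by linarith [hx.1])).continuousAt.continuousWithinAt)
      (fun x hx => hd x (by linarith [hx.1]))
    obtain ⟨ξ, hξ, h2⟩ := ih hl' (k + 1) η (by linarith [hη.1])
    refine ⟨ξ, by linarith [hη.1], ?_⟩
    rw [h2] at h1
    have h3 : u + a - u = a := by ring
    rw [h3] at h1
    show D l (g k) (u + a) - D l (g k) u = _
    rw [List.prod_cons, List.length_cons]
    have h4 : k + 1 + l.length = k + (l.length + 1) := by ring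
    rw [h4] at h1
    have h5 : D l (g k) (u + a) - D l (g k) u = a * (l.prod * g (k + (l.length + 1)) ξ) := by
      rw [h1]
      field_simp
    rw [h5]
    ring

/-- the coefficients of the derivatives of the square root -/
noncomputable def cc : ℕ → ℝ
  | 0 => 1
  | k + 1 => cc k * (1 / 2 - k)

/-- the derivatives of the square root -/
noncomputable def sq (k : ℕ) (u : ℝ) : ℝ := cc k * u ^ ((1 : ℝ) / 2 - k)

theorem sq_deriv (k : ℕ) (u : ℝ) (hu : 0 < u) : HasDerivAt (sq k) (sq (k + 1) u) u := by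
  have h1 : HasDerivAt (fun x : ℝ => x ^ ((1 : ℝ) / 2 - k)) (((1 : ℝ) / 2 - k) * u ^ ((1 : ℝ) / 2 - k - 1)) u :=
    Real.hasDerivAt_rpow_const (Or.inl hu.ne')
  have h2 := h1.const_mul (cc k)
  have h3 : sq (k + 1) u = cc k * (((1 : ℝ) / 2 - k) * u ^ ((1 : ℝ) / 2 - k - 1)) := by
    unfold sq
    show cc k * (1 / 2 - k) * _ = _
    have h4 : (1 : ℝ) / 2 - ((k + 1 : ℕ) : ℝ) = 1 / 2 - k - 1 := by
      push_cast
      ring
    rw [h4]
    ring
  rw [h3]
  exact h2

theorem sq_zero (u : ℝ) : sq 0 u = √u := by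
  unfold sq
  show (1 : ℝ) * u ^ ((1 : ℝ) / 2 - (0 : ℕ)) = √u
  rw [Real.sqrt_eq_rpow]
  simp

theorem cc_abs (k : ℕ) : |cc (k + 1)| * 2 ^ (k + 1) = ((Nat.doubleFactorial (2 * (k + 1) - 3) : ℕ) : ℝ) := by
  induction k with
  | zero =>
    show |(1 : ℝ) * (1 / 2 - (0 : ℕ))| * 2 ^ 1 = _
    norm_num [Nat.doubleFactorial]
  | succ k ih =>
    have h1 : cc (k + 2) = cc (k + 1) * (1 / 2 - ((k + 1 : ℕ) : ℝ)) := rfl
    have h2 : |(1 : ℝ) / 2 - ((k + 1 : ℕ) : ℝ)| = (2 * k + 1) / 2 := by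
      push_cast
      rw [abs_of_nonpos (by linarith [(Nat.cast_nonneg k : (0 : ℝ) ≤ k)])]
      ring
    rw [h1, abs_mul, h2, pow_succ]
    have h3 : |cc (k + 1)| * ((2 * k + 1) / 2) * (2 ^ (k + 1) * 2) =
        (|cc (k + 1)| * 2 ^ (k + 1)) * (2 * k + 1) := by ring
    rw [h3, ih]
    rcases k with _ | k
    · norm_num [Nat.doubleFactorial]
    · have h4 : 2 * (k + 1 + 1 + 1) - 3 = (2 * (k + 1 + 1) - 3) + 2 := by omega
      rw [h4, Nat.doubleFactorial_add_two]
      have h5 : 2 * (k + 1 + 1) - 3 + 2 = 2 * (k + 1) + 1 := by omega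
      rw [h5]
      push_cast
      ring

theorem cc_ne (k : ℕ) : cc k ≠ 0 := by
  induction k with
  | zero => exact one_ne_zero
  | succ k ih =>
    show cc k * (1 / 2 - k) ≠ 0
    apply mul_ne_zero ih
    intro h
    have h1 : (k : ℝ) * 2 = 1 := by linarith
    have h2 : k * 2 = 1 := by exact_mod_cast h1
    omega

/-- linearity and integrality -/
theorem D_sub (l : List ℝ) (f g : ℝ → ℝ) (u : ℝ) : D l (fun x => f x - g x) u = D l f u - D l g u := by
  induction l generalizing u with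
  | nil => rfl
  | cons a l ih =>
    show D l _ (u + a) - D l _ u = (D l f (u + a) - D l f u) - (D l g (u + a) - D l g u)
    rw [ih, ih]
    ring

theorem D_even (l : List ℝ) (f : ℝ → ℝ) (u : ℝ)
    (h : ∀ s : List ℝ, s.Sublist l → ∃ n : ℤ, f (u + s.sum) = 2 * n) : ∃ n : ℤ, D l f u = 2 * n := by
  induction l generalizing u with
  | nil =>
    obtain ⟨n, hn⟩ := h [] (List.Sublist.refl _)
    exact ⟨n, by simpa [D] using hn⟩
  | cons a l ih =>
    obtain ⟨n, hn⟩ := ih (u + a) (fun s hs => by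
      obtain ⟨n, hn⟩ := h (a :: s) (hs.cons_cons a)
      exact ⟨n, by rw [← hn, List.sum_cons, add_assoc]⟩)
    obtain ⟨m, hm⟩ := ih u (fun s hs => h s (hs.cons a))
    refine ⟨n - m, ?_⟩
    show D l f (u + a) - D l f u = _
    rw [hn, hm]
    push_cast
    ring

theorem D_const (l : List ℝ) (hl : l ≠ []) (c u : ℝ) : D l (fun _ => c) u = 0 := by
  induction l generalizing u with
  | nil => exact absurd rfl hl
  | cons a l ih =>
    show D l (fun _ => c) (u + a) - D l (fun _ => c) u = 0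
    by_cases h : l = []
    · subst h
      show c - c = 0
      ring
    · rw [ih h, ih h, sub_zero]

theorem D_id (l : List ℝ) (hl : 2 ≤ l.length) (u : ℝ) : D l (fun x => x) u = 0 := by
  have key : ∀ (l : List ℝ) (a u : ℝ), D l (fun x => x) (u + a) - D l (fun x => x) u = D l (fun _ => a) u := by
    intro l
    induction l with
    | nil =>
      intro a u
      show u + a - u = a
      ring
    | cons b l ih =>
      intro a u
      show (D l (fun x => x) (u + a + b) - D l (fun x => x) (u + a)) -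
        (D l (fun x => x) (u + b) - D l (fun x => x) u) =
        D l (fun _ => a) (u + b) - D l (fun _ => a) u
      rw [← ih a (u + b), ← ih a u]
      have h1 : u + a + b = u + b + a := by ring
      rw [h1]
      ring
  rcases l with _ | ⟨a, l⟩
  · simp at hl
  · show D l (fun x => x) (u + a) - D l (fun x => x) u = 0
    rw [key l a u]
    apply D_const
    intro h
    subst h
    simp at hl

/-- the inequality for a list of positive steps -/
theorem list_bound (l : List ℝ) (hl : ∀ a ∈ l, 0 < a) (h2 : 2 ≤ l.length) (u : ℝ) (hu : 0 < u)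
    (h : ∀ s : List ℝ, s.Sublist l → ∃ n : ℤ, 0 ≤ n ∧ u + s.sum = (n : ℝ) ^ 2) :
    4 ^ (l.length + 1) * u ^ (2 * l.length - 1) ≤
      ((Nat.doubleFactorial (2 * l.length - 3) : ℕ) : ℝ) ^ 2 * l.prod ^ 2 := by
  obtain ⟨ξ, hξ, h3⟩ := D_mvt l hl sq sq_deriv 0 u hu
  rw [zero_add] at h3
  have hξ0 : 0 < ξ := lt_of_lt_of_le hu hξ
  have hprod : 0 < l.prod := List.prod_pos hl
  -- the difference is an even integer
  obtain ⟨m, hm⟩ := D_even l (fun x => sq 0 x - x) u (fun s hs => by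
    obtain ⟨n, hn0, hn⟩ := h s hs
    have h4 : sq 0 (u + s.sum) = n := by
      rw [sq_zero, hn, Real.sqrt_sq (by exact_mod_cast hn0)]
    obtain ⟨t, ht⟩ := Int.even_mul_pred_self n
    refine ⟨-t, ?_⟩
    show sq 0 (u + s.sum) - (u + s.sum) = _
    rw [h4, hn]
    have h5 : ((n * (n - 1) : ℤ) : ℝ) = ((t + t : ℤ) : ℝ) := by rw [ht]
    push_cast at h5 ⊢
    linarith [h5, sq_nonneg (n : ℝ), (by ring : (n : ℝ) * (n - 1) = (n : ℝ) ^ 2 - n)])
  rw [D_sub l (sq 0) (fun x => x), D_id l h2, sub_zero] at hm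
  have hne : D l (sq 0) u ≠ 0 := by
    rw [h3]
    apply mul_ne_zero hprod.ne'
    unfold sq
    exact mul_ne_zero (cc_ne _) (Real.rpow_pos_of_pos hξ0 _).ne'
  have hge : 2 ≤ |D l (sq 0) u| := by
    rw [hm]
    have hm0 : m ≠ 0 := by
      rintro rfl
      exact hne (by rw [hm]; simp)
    have h5 : (1 : ℤ) ≤ |m| := Int.one_le_abs hm0
    have h6 : (1 : ℝ) ≤ |(m : ℝ)| := by exact_mod_cast h5
    rw [abs_mul, abs_two]
    linarith
  -- square it
  obtain ⟨k, hk⟩ : ∃ k, l.length = k + 1 := ⟨l.length - 1, by omega⟩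
  have h6 : |D l (sq 0) u| = l.prod * (|cc l.length| * ξ ^ ((1 : ℝ) / 2 - l.length)) := by
    rw [h3, abs_mul, abs_of_pos hprod]
    unfold sq
    rw [abs_mul, abs_of_pos (Real.rpow_pos_of_pos hξ0 _)]
  have h7 : ξ ^ ((1 : ℝ) / 2 - l.length) ≤ u ^ ((1 : ℝ) / 2 - l.length) := by
    apply Real.rpow_le_rpow_of_nonpos hu hξ
    have : (2 : ℝ) ≤ l.length := by exact_mod_cast h2
    linarith
  have h8 : 2 ≤ l.prod * (|cc l.length| * u ^ ((1 : ℝ) / 2 - l.length)) := by
    refine hge.trans ?_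
    rw [h6]
    exact mul_le_mul_of_nonneg_left (mul_le_mul_of_nonneg_left h7 (abs_nonneg _)) hprod.le
  have hcc : |cc l.length| * 2 ^ l.length = ((Nat.doubleFactorial (2 * l.length - 3) : ℕ) : ℝ) := by
    rw [hk]
    exact cc_abs k
  have hU : (u ^ ((1 : ℝ) / 2 - l.length)) ^ 2 * u ^ (2 * l.length - 1) = 1 := by
    rw [← Real.rpow_natCast (u ^ ((1 : ℝ) / 2 - l.length)) 2, ← Real.rpow_mul hu.le,
      ← Real.rpow_natCast u (2 * l.length - 1), ← Real.rpow_add hu]
    have h9 : (((2 * l.length - 1 : ℕ)) : ℝ) = 2 * (l.length : ℝ) - 1 := by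
      rw [Nat.cast_sub (by omega)]
      push_cast
      ring
    rw [h9]
    have h10 : ((1 : ℝ) / 2 - l.length) * ((2 : ℕ) : ℝ) + (2 * (l.length : ℝ) - 1) = 0 := by
      push_cast
      ring
    rw [h10, Real.rpow_zero]
  have h9 : (2 : ℝ) ^ 2 ≤ (l.prod * (|cc l.length| * u ^ ((1 : ℝ) / 2 - l.length))) ^ 2 :=
    pow_le_pow_left₀ (by norm_num) h8 2
  have hpow : 0 < u ^ (2 * l.length - 1) := pow_pos hu _
  calc (4 : ℝ) ^ (l.length + 1) * u ^ (2 * l.length - 1)
      = (2 ^ 2 : ℝ) * ((2 ^ l.length) ^ 2 * u ^ (2 * l.length - 1)) := by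
        rw [pow_succ, ← pow_mul, mul_comm l.length 2, pow_mul]
        norm_num
        ring
    _ ≤ (l.prod * (|cc l.length| * u ^ ((1 : ℝ) / 2 - l.length))) ^ 2 *
        ((2 ^ l.length) ^ 2 * u ^ (2 * l.length - 1)) :=
        mul_le_mul_of_nonneg_right h9 (by positivity)
    _ = (|cc l.length| * 2 ^ l.length) ^ 2 * l.prod ^ 2 *
        ((u ^ ((1 : ℝ) / 2 - l.length)) ^ 2 * u ^ (2 * l.length - 1)) := by ring
    _ = _ := by rw [hU, hcc, mul_one]

end Pool.Agent.H51.HQ
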