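import Pool.Agent.H51.HQ.Dif

set_option autoImplicit false

/-!
# Products of steps of a Hilbert cube in the squares
-/

namespace Pool.Agent.H51.HQ

open Finset

variable {ι : Type} [Fintype ι] [DecidableEq ι]

/-- the cube values of the face in the directions `J` -/
theorem face_value (a₀ : ℤ) (a : ι → ℤ) (J K : Finset ι) (hK : K ⊆ J) :
    ∃ I : Finset ι, a₀ + ∑ i ∈ Jᶜ, max (a i) 0 + ∑ i ∈ J, min (a i) 0 + ∑ i ∈ K, |a i| =
      a₀ + ∑ i ∈ I, a i := by
  refine ⟨Jᶜ.filter (fun i => 0 < a i) ∪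
    J.filter (fun i => (a i < 0 ∧ i ∉ K) ∨ (0 < a i ∧ i ∈ K)), ?_⟩
  rw [sum_union (disjoint_of_subset_left (filter_subset _ _)
    (disjoint_of_subset_right (filter_subset _ _) disjoint_compl_left)), sum_filter, sum_filter]
  have h1 : ∑ i ∈ Jᶜ, max (a i) 0 = ∑ i ∈ Jᶜ, if 0 < a i then a i else 0 := by
    apply sum_congr rfl
    intro i _
    split_ifs with h
    · exact max_eq_left h.le
    · exact max_eq_right (not_lt.1 h)
  have h2 : ∑ i ∈ K, |a i| = ∑ i ∈ J, if i ∈ K then |a i| else 0 := by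
    rw [← sum_filter]
    congr 1
    ext i
    rw [mem_filter]
    exact ⟨fun h => ⟨hK h, h⟩, fun h => h.2⟩
  have h3 : ∑ i ∈ J, min (a i) 0 + ∑ i ∈ K, |a i| =
      ∑ i ∈ J, if (a i < 0 ∧ i ∉ K) ∨ (0 < a i ∧ i ∈ K) then a i else 0 := by
    rw [h2, ← sum_add_distrib]
    apply sum_congr rfl
    intro i _
    rcases lt_trichotomy (a i) 0 with h | h | h
    · rw [min_eq_left h.le, abs_of_neg h]
      by_cases hi : i ∈ K
      · rw [if_pos hi, if_neg (by rintro (h4 | h4); exacts [h4.2 hi, absurd h4.1 (not_lt.2 h.le)])]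
        ring
      · rw [if_neg hi, if_pos (Or.inl ⟨h, hi⟩)]
        ring
    · rw [h]
      simp
    · rw [min_eq_right h.le, abs_of_pos h]
      by_cases hi : i ∈ K
      · rw [if_pos hi, if_pos (Or.inr ⟨h, hi⟩)]
        ring
      · rw [if_neg hi, if_neg (by rintro (h4 | h4); exacts [absurd h4.1 (not_lt.2 h.le), hi h4.2])]
        ring
  rw [← h1, ← h3]
  ring

theorem main (a₀ : ℤ) (a : ι → ℤ) (ha : ∀ i, a i ≠ 0)
    (h : ∀ I : Finset ι, IsSquare (a₀ + ∑ i ∈ I, a i)) (J : Finset ι) (hJ : 2 ≤ J.card) :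
    4 ^ (J.card + 1) * (a₀ + ∑ i ∈ Jᶜ, max (a i) 0 + ∑ i ∈ J, min (a i) 0) ^ (2 * J.card - 1) ≤
      ((Nat.doubleFactorial (2 * J.card - 3) : ℕ) : ℤ) ^ 2 * (∏ i ∈ J, a i) ^ 2 := by
  set m : ℤ := a₀ + ∑ i ∈ Jᶜ, max (a i) 0 + ∑ i ∈ J, min (a i) 0 with hm
  have hval : ∀ K : Finset ι, K ⊆ J → ∃ n : ℤ, 0 ≤ n ∧ m + ∑ i ∈ K, |a i| = n ^ 2 := by
    intro K hK
    obtain ⟨I, hI⟩ := face_value a₀ a J K hK
    obtain ⟨t, ht⟩ := h I
    refine ⟨|t|, abs_nonneg t, ?_⟩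
    rw [sq_abs, hm, hI, ht, pow_two]
  have hm0 : 0 ≤ m := by
    obtain ⟨n, _, hn⟩ := hval ∅ (empty_subset _)
    rw [sum_empty, add_zero] at hn
    rw [hn]
    positivity
  rcases hm0.eq_or_lt with h0 | hpos
  · rw [← h0, zero_pow (by omega), mul_zero]
    positivity
  · set l : List ℝ := J.toList.map (fun i => ((|a i| : ℤ) : ℝ)) with hl
    have hlen : l.length = J.card := by rw [hl, List.length_map, Finset.length_toList]
    have hprod : l.prod = ((∏ i ∈ J, |a i| : ℤ) : ℝ) := by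
      rw [hl, Finset.prod_map_toList]
      push_cast
      rfl
    have hpos' : ∀ x ∈ l, 0 < x := by
      intro x hx
      rw [hl, List.mem_map] at hx
      obtain ⟨i, _, rfl⟩ := hx
      exact_mod_cast abs_pos.2 (ha i)
    have hs : ∀ s : List ℝ, s.Sublist l → ∃ n : ℤ, 0 ≤ n ∧ (m : ℝ) + s.sum = (n : ℝ) ^ 2 := by
      intro s hs
      rw [hl, List.sublist_map_iff] at hs
      obtain ⟨s', hs', rfl⟩ := hs
      have hnd : s'.Nodup := hs'.nodup J.nodup_toList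
      obtain ⟨n, hn0, hn⟩ := hval s'.toFinset (fun i hi => by
        rw [List.mem_toFinset] at hi
        exact Finset.mem_toList.1 (hs'.subset hi))
      refine ⟨n, hn0, ?_⟩
      have h1 : (s'.map (fun i => ((|a i| : ℤ) : ℝ))).sum = ((∑ i ∈ s'.toFinset, |a i| : ℤ) : ℝ) := by
        rw [Int.cast_sum, List.sum_toFinset _ hnd]
      rw [h1]
      exact_mod_cast hn
    have hb := list_bound l hpos' (by rw [hlen]; exact hJ) (m : ℝ) (by exact_mod_cast hpos) hs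
    rw [hlen, hprod] at hb
    have hb' : (4 : ℤ) ^ (J.card + 1) * m ^ (2 * J.card - 1) ≤
        ((Nat.doubleFactorial (2 * J.card - 3) : ℕ) : ℤ) ^ 2 * (∏ i ∈ J, |a i|) ^ 2 := by
      exact_mod_cast hb
    rw [← Finset.abs_prod, sq_abs] at hb'
    exact hb'

end Pool.Agent.H51.HQ
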